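import Pool.Agent.V11228.KExact

/-!
# Exact Triangle needs many reads or much memory even if most of the weights are known in advance

The inputs are the bits of an instance of Exact Triangle (`Valid`, `Yes`,
`Pool/Agent/W896/FD/ExTri.lean`): the edge flags, and the signs and absolute values of the weights in
binary. We fix, once and for all, weights `W e` between `-16` and `16` for all pairs of the
`q + 2 n` vertices, and a division of the vertices into a set `A` of `q` and a set `B` of `2 n`
vertices; and we consider only the inputs in which all pairs are edges and the weight of each pair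
`e` is `W e`, except that the weights between `A` and `B` may also be `W e + 1` (`Known`). So all
weights inside `A` and inside `B` are known in advance, and all bits of the other ones but the least
significant ones. The algorithms may depend on `W` in an arbitrary way (every preprocessing is free of
charge). Two models of computation are considered.

* Circuits with AND gates of fan-in two, OR gates of any fan-in and negations at the inputs
  (nondeterministic branching programs and programs with a stack are of this kind). The formal degree
  in an input bit is the largest number of leaves with this bit in a proof tree.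
* Tree tensor networks: every leaf of a binary tree reads one bit and holds a vector, depending on
  the bit, with coordinates in `L`, every inner node combines the vectors of its children by any
  bilinear map; an input is accepted if a linear form of the vector of the root is not zero.
  Contributions of different computations may cancel; the field is arbitrary.

They have to accept the inputs of this kind without a triangle of weight zero, and none of those with
such a triangle; they may be random with one-sided error, and accept with exponentially small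
probability. If the `2 n` unknown bits at ONE vertex `u` in `A` are read at most `k n` times in total
(all the other bits may be read as often as one likes) then the memory is at least `n / 2 ^ (O (k))`.
With a memory of `n ^ (1 - ε)` bits one needs `Ω (ε n log n)` reads of the unknown bits at each vertex
of `A`, and `Ω (ε q n log n)` reads in total.

In the results which were known for these models (the starting file `FormalDegree`, and
`TensorNetworks` by another helper) the weights of the hard instances code a matching which is chosen
at random after the reads are fixed, so that the weights between the other vertices are not known in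
advance.

**Proof.** `B` is divided into two sets of `n` vertices; between them the known weights are `-2` for
the edges of a sparse bipartite graph `M` and `4` for the other pairs, they are `16` inside these sets
and inside `A`, and `0` between `A` and `B`. Only a triangle `u, v, w` with `u` in `A`, unknown weights
one and `v w` an edge of `M` has weight zero. The graph `M` is chosen at random once and for all; every
two sets of `n / 2 ^ (O (k))` vertices of the two sides are joined by an edge. If the computation is
divided into few pieces and these into two sides, there is a large matching in `M` between the vertices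
whose bits are read on the one side only and those whose bits are read on the other side only. The
theorems of the modules `Pool/Agent/V11228/OMv*.lean` (my results on matrix-vector products with a
fixed matrix) give the bounds.
-/

set_option autoImplicit false

open Finset

namespace Pool.Agent.Results.MP_62fbe0_lc.KnownWeights

open Pool.Agent.W896.RK Pool.Agent.W896.FD Pool.Agent.TH700.TN Pool.Agent.V11228.KExact
open Pool.Agent.W896.FD.ExTri (Pl Valid Yes)

/-- The bits of the entry `e` of the (symmetric) matrix are `(e, none)` (edge flag),
`(e, some none)` (sign of the weight) and `(e, some (some j))` (with the weight `2 ^ j`), `j ≤ w`.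
`Known W A B x` says that all pairs are edges, and that the weight of each pair `e` is `W e`, or
`W e + 1` if `e` is a pair of a vertex in `A` and a vertex in `B`.

(1) For all `k`, `n ≥ 1` and `q` there are weights `W` between `-16` and `16` for `q + 2 n` vertices
and disjoint sets `A` and `B` of `q` and `2 n` of them such that all inputs of this kind are valid, and
for every `u` in `A`:
(a) let `U r` (`r` in a finite nonempty set) be circuits none of which accepts an input of this kind
with a triangle of weight zero, while every input of this kind without such a triangle is accepted by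
at least a `2 ^ (- ⌊n / 2 ^ (70 (k + 1))⌋)` fraction of them; if in each `U r` the formal degrees in
the least significant bits of the weights of the pairs `{u, v}`, `v ∈ B`, sum up to at most `k n`, then
some `U r` has `g` gates with `n ≤ 2 ^ (70 (k + 1)) (⌊log₂ g⌋ + 1)`;
(b) the same is true for tree tensor networks over any fields with at most `k n` leaves which read
these bits, with the bond dimension `|L r|` in place of `g`.

(2) For `0 < ε ≤ 1`, all large `n` and all `q` there are such `W`, `A`, `B` for which circuits with at
most `2 ^ m` gates, or networks of bond dimension at most `2 ^ m`, whose acceptance probability is at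
least `2 ^ (- μ)` on the inputs without a triangle of weight zero, where `m, μ ≤ n ^ (1 - ε)`, have,
for every `u` in `A`, degrees, or numbers of leaves, whose sum over these bits is at least
`(ε / 210) n log₂ n` for some `r`.

(3) For `0 < ε ≤ 1`, all large `n` and all `q` there are such `W`, `A`, `B` for which every circuit
with at most `2 ^ m` gates, and every network of bond dimension at most `2 ^ m`, that is right on all
inputs of this kind, where `m ≤ n ^ (1 - ε)`, has degrees, or numbers of leaves, whose sum over the
least significant bits of the weights between `A` and `B` is at least `(ε / 210) q n log₂ n`. -/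
theorem result :
    (∀ k n q : ℕ, 1 ≤ n → ∃ (W : Sym2 (Fin (q + 2 * n)) → ℤ) (A B : Finset (Fin (q + 2 * n))),
      A.card = q ∧ B.card = 2 * n ∧ Disjoint A B ∧ (∀ e, |W e| ≤ 16) ∧
      (∀ w, ∀ x : Sym2 (Fin (q + 2 * n)) × Pl w → Bool, Known W A B x → Valid x) ∧
      (∀ w, 16 < 2 ^ (w + 1) → ∀ u ∈ A,
        ∀ (R : Type) [Fintype R] [Nonempty R] (U : R → Circ (Sym2 (Fin (q + 2 * n)) × Pl w)),
        (∀ r x, Known W A B x → (U r).Val x (U r).out → ¬ Yes x) →
        (∀ x, Known W A B x → ¬ Yes x → Nat.card R ≤
          2 ^ (n / 2 ^ (70 * (k + 1))) * Nat.card {r // (U r).Val x (U r).out}) →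
        (∀ r, ∃ d : (U r).G → Sym2 (Fin (q + 2 * n)) × Pl w → ℕ, IsDeg (U r) id d ∧
          ∑ v ∈ B, d (U r).out (s(u, v), some (some 0)) ≤ k * n) →
        ∃ r, n ≤ 2 ^ (70 * (k + 1)) * (Nat.log 2 (Fintype.card (U r).G) + 1)) ∧
      (∀ w, 16 < 2 ^ (w + 1) → ∀ u ∈ A,
        ∀ (R : Type) [Fintype R] [Nonempty R] (K L : R → Type) [∀ r, Field (K r)]
          [∀ r, Fintype (L r)] (P : ∀ r, Net (K r) (Sym2 (Fin (q + 2 * n)) × Pl w) (L r))
          (a : ∀ r, L r → K r),
        (∀ r x, Known W A B x → (P r).value (a r) x ≠ 0 → ¬ Yes x) →
        (∀ x, Known W A B x → ¬ Yes x → Nat.card R ≤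
          2 ^ (n / 2 ^ (70 * (k + 1))) * Nat.card {r // (P r).value (a r) x ≠ 0}) →
        (∀ r, ∑ v ∈ B, (P r).reads (s(u, v), some (some 0)) ≤ k * n) →
        ∃ r, n ≤ 2 ^ (70 * (k + 1)) * (Nat.log 2 (Fintype.card (L r)) + 1))) ∧
    (∀ ε : ℝ, 0 < ε → ε ≤ 1 → ∃ n₀ : ℕ, ∀ n ≥ n₀, ∀ q : ℕ,
      ∃ (W : Sym2 (Fin (q + 2 * n)) → ℤ) (A B : Finset (Fin (q + 2 * n))),
      A.card = q ∧ B.card = 2 * n ∧ Disjoint A B ∧ (∀ e, |W e| ≤ 16) ∧
      (∀ w, ∀ x : Sym2 (Fin (q + 2 * n)) × Pl w → Bool, Known W A B x → Valid x) ∧
      (∀ w, 16 < 2 ^ (w + 1) → ∀ m μ : ℕ, (m : ℝ) ≤ (n : ℝ) ^ (1 - ε) →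
          (μ : ℝ) ≤ (n : ℝ) ^ (1 - ε) → ∀ u ∈ A,
        ∀ (R : Type) [Fintype R] [Nonempty R] (U : R → Circ (Sym2 (Fin (q + 2 * n)) × Pl w)),
        (∀ r, Fintype.card (U r).G ≤ 2 ^ m) →
        (∀ r x, Known W A B x → (U r).Val x (U r).out → ¬ Yes x) →
        (∀ x, Known W A B x → ¬ Yes x →
          Nat.card R ≤ 2 ^ μ * Nat.card {r // (U r).Val x (U r).out}) →
        ∃ r, ∀ d : (U r).G → Sym2 (Fin (q + 2 * n)) × Pl w → ℕ, IsDeg (U r) id d →
          ε / 210 * (n * Real.logb 2 n) ≤
            (∑ v ∈ B, d (U r).out (s(u, v), some (some 0)) : ℕ)) ∧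
      (∀ w, 16 < 2 ^ (w + 1) → ∀ m μ : ℕ, (m : ℝ) ≤ (n : ℝ) ^ (1 - ε) →
          (μ : ℝ) ≤ (n : ℝ) ^ (1 - ε) → ∀ u ∈ A,
        ∀ (R : Type) [Fintype R] [Nonempty R] (K L : R → Type) [∀ r, Field (K r)]
          [∀ r, Fintype (L r)] (P : ∀ r, Net (K r) (Sym2 (Fin (q + 2 * n)) × Pl w) (L r))
          (a : ∀ r, L r → K r),
        (∀ r, Fintype.card (L r) ≤ 2 ^ m) →
        (∀ r x, Known W A B x → (P r).value (a r) x ≠ 0 → ¬ Yes x) →
        (∀ x, Known W A B x → ¬ Yes x →
          Nat.card R ≤ 2 ^ μ * Nat.card {r // (P r).value (a r) x ≠ 0}) →
        ∃ r, ε / 210 * (n * Real.logb 2 n) ≤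
          (∑ v ∈ B, (P r).reads (s(u, v), some (some 0)) : ℕ))) ∧
    ∀ ε : ℝ, 0 < ε → ε ≤ 1 → ∃ n₀ : ℕ, ∀ n ≥ n₀, ∀ q : ℕ,
      ∃ (W : Sym2 (Fin (q + 2 * n)) → ℤ) (A B : Finset (Fin (q + 2 * n))),
      A.card = q ∧ B.card = 2 * n ∧ Disjoint A B ∧ (∀ e, |W e| ≤ 16) ∧
      ∀ w, 16 < 2 ^ (w + 1) → ∀ m : ℕ, (m : ℝ) ≤ (n : ℝ) ^ (1 - ε) →
      (∀ U : Circ (Sym2 (Fin (q + 2 * n)) × Pl w), Fintype.card U.G ≤ 2 ^ m →
        (∀ x, Known W A B x → (U.Val x U.out ↔ ¬ Yes x)) →
        ∀ d : U.G → Sym2 (Fin (q + 2 * n)) × Pl w → ℕ, IsDeg U id d →
          ε / 210 * (q * n * Real.logb 2 n) ≤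
            (∑ u ∈ A, ∑ v ∈ B, d U.out (s(u, v), some (some 0)) : ℕ)) ∧
      (∀ (K L : Type) [Field K] [Fintype L] (P : Net K (Sym2 (Fin (q + 2 * n)) × Pl w) L)
        (a : L → K), Fintype.card L ≤ 2 ^ m →
        (∀ x, Known W A B x → (P.value a x ≠ 0 ↔ ¬ Yes x)) →
          ε / 210 * (q * n * Real.logb 2 n) ≤
            (∑ u ∈ A, ∑ v ∈ B, P.reads (s(u, v), some (some 0)) : ℕ)) :=
  ⟨main, fun _ hε hε1 => asymp hε hε1, fun _ hε hε1 => total hε hε1⟩

end Pool.Agent.Results.MP_62fbe0_lc.KnownWeights
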