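import Pool.Agent.V11163.NT.ET

/-!
# Exact Triangle needs many reads or much memory: tree tensor networks

The inputs are the bits of an instance of Exact Triangle with `n` vertices (`Valid`, `Yes`,
`Pool/Agent/W896/FD/ExTri.lean`): the edge flags, and the signs and absolute values of the weights in
binary. A tree tensor network (`Net`, `Pool/Agent/TH700/TN/Defs.lean`) is a binary tree. Every leaf
reads one bit and holds a vector for each of its two values; every inner node combines the vectors of
its children by an arbitrary bilinear map; the output is a linear form of the vector of the root. The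
network accepts if the output is not zero. The coefficients are in any field; the dimension `|W|` of
the vectors is the bond dimension, its logarithm is the memory. A bit may be read by many leaves.
Matrix products (weighted automata and oblivious algebraic branching programs of width `|W|`),
dynamic programming over any tree of the input bits, and the counting of solutions modulo a prime by
such programs are of this kind; the contributions of different computations may cancel.

The networks have to accept the instances without a triangle of weight zero, and no others. We show
that the memory is at least `n / 2 ^ (O (k))` if the least significant bits of the weights at ONE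
vertex `u` are read at most `k` times on average, while all the other bits may be read as often as
one likes. So with a memory of `n ^ (1 - ε)` bits one has to read the least significant bits
`Ω (ε n log n)` times at each vertex, and `Ω (ε n ^ 2 log n)` times in total. The first two statements
remain true for random networks with one-sided error which find out only with very small
probability that there is no triangle of weight zero. For constant `k` the bound for one vertex is
optimal up to the constant factor: with bond dimension `2 ^ n + 1` one can decide Exact Triangle,
reading each of the least significant bits at `u` once.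

**Proof.** The tree is cut into `O (k ^ 2)` pieces, each of which reads only few of the last bits at
`u` which are not read too often; the output is a sum of `|W| ^ (O (k ^ 2))` products of functions of
the pieces (`net_pd`). A coloring of the pieces by two sides gives two sets of vertices `v` of linear
size such that the last bits of the weights of `{u, v}` are read on one side only (`exists_color`). A
random placement of a matching on the other vertices makes many of its pairs cross between the two
sets. As in the starting result on formal degree, the weights at `u` are `0` and `1`, the pairs of the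
matching have the weight `-2` and all other pairs the weight `4`. If all bits but those of the
crossing pairs are fixed, the outputs form a matrix of rank at most `|W| ^ (O (k ^ 2))` in which all
entries `(z, z)` of many `z` are not zero, while for `z ≠ z'` one of the entries `(z, z')` and
`(z', z)` is zero; so the Hadamard product of the matrix with its transpose is diagonal on these
rows, and its rank is at most the square (`rank_sq`).
-/

set_option autoImplicit false

namespace Pool.Agent.Results.MP_62fbe0_lc.TensorNetworks

open Pool.Agent.W896.FD.ExTri Pool.Agent.TH700.TN Pool.Agent.V11163.NT.ET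

/-- The bits of the entry `e` of the (symmetric) matrix are `(e, none)` (edge flag),
`(e, some none)` (sign of the weight) and `(e, some (some j))` (with the weight `2 ^ j`); `m + 1` bits
are enough for `n ^ 300`.

(1) Let `u` be a vertex and `T r` (`r` in a finite nonempty set) tree tensor networks over fields
`K r`, with vectors indexed by `W r` and output vectors `a r`, none of which accepts an instance with
a triangle of weight zero, such that every instance without such a triangle is accepted by at least a
`2 ^ (- ⌊n / 2 ^ (60 (k + 3))⌋)` fraction of them. If each `T r` has at most `k n` leaves which read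
least significant bits of the weights of the pairs `{u, v}`, then
`n ≤ 2 ^ (60 (k + 3)) (⌊log₂ |W r|⌋ + 1)` for some `r`.

(2) For `0 < ε ≤ 1`, all large `n` and every vertex `u`: if such a family has bond dimensions at most
`2 ^ w` and acceptance probability at least `2 ^ (- μ)` on the instances without a triangle of weight
zero, where `w, μ ≤ n ^ (1 - ε)`, then some `T r` has at least `(ε / 540) n log₂ n` leaves which read
least significant bits of the weights of the pairs `{u, v}`.

(3) For `0 < ε ≤ 1` and all large `n`: if a network with bond dimension at most `2 ^ w`, where
`w ≤ n ^ (1 - ε)`, accepts exactly the instances without a triangle of weight zero (among all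
instances), then it has at least `(ε / 1080) n ^ 2 log₂ n` leaves which read least significant bits
of weights.

(4) For every field and every vertex `u` there is a network with bond dimension `2 ^ n + 1` with one
leaf for the least significant bit of the weight of each pair `{u, v}` which accepts exactly the
instances without a triangle of weight zero. -/
theorem result :
    (∀ k n m : ℕ, n ^ 300 < 2 ^ (m + 1) → ∀ (u : Fin n) (R : Type) [Fintype R] [Nonempty R]
        (K W : R → Type) [∀ r, Field (K r)] [∀ r, Fintype (W r)]
        (T : ∀ r, Net (K r) (Sym2 (Fin n) × Pl m) (W r)) (a : ∀ r, W r → K r),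
        (∀ r x, Valid x → (T r).value (a r) x ≠ 0 → ¬ Yes x) →
        (∀ x, Valid x → ¬ Yes x → Nat.card R ≤
          2 ^ (n / 2 ^ (60 * (k + 3))) * Nat.card {r // (T r).value (a r) x ≠ 0}) →
        (∀ r, ∑ v, (T r).reads (s(u, v), some (some 0)) ≤ k * n) →
        ∃ r, n ≤ 2 ^ (60 * (k + 3)) * (Nat.log 2 (Fintype.card (W r)) + 1)) ∧
    (∀ ε : ℝ, 0 < ε → ε ≤ 1 → ∃ n₀ : ℕ, ∀ n ≥ n₀,
      ∀ m w μ : ℕ, n ^ 300 < 2 ^ (m + 1) → (w : ℝ) ≤ (n : ℝ) ^ (1 - ε) →
        (μ : ℝ) ≤ (n : ℝ) ^ (1 - ε) →
      ∀ (u : Fin n) (R : Type) [Fintype R] [Nonempty R] (K W : R → Type) [∀ r, Field (K r)]
        [∀ r, Fintype (W r)] (T : ∀ r, Net (K r) (Sym2 (Fin n) × Pl m) (W r))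
        (a : ∀ r, W r → K r), (∀ r, Fintype.card (W r) ≤ 2 ^ w) →
        (∀ r x, Valid x → (T r).value (a r) x ≠ 0 → ¬ Yes x) →
        (∀ x, Valid x → ¬ Yes x →
          Nat.card R ≤ 2 ^ μ * Nat.card {r // (T r).value (a r) x ≠ 0}) →
        ∃ r, ε / 540 * (n * Real.logb 2 n) ≤
          (∑ v, (T r).reads (s(u, v), some (some 0)) : ℕ)) ∧
    (∀ ε : ℝ, 0 < ε → ε ≤ 1 → ∃ n₀ : ℕ, ∀ n ≥ n₀,
      ∀ m w : ℕ, n ^ 300 < 2 ^ (m + 1) → (w : ℝ) ≤ (n : ℝ) ^ (1 - ε) →
      ∀ (K W : Type) [Field K] [Fintype W] (T : Net K (Sym2 (Fin n) × Pl m) W) (a : W → K),
        Fintype.card W ≤ 2 ^ w → (∀ x, Valid x → (T.value a x ≠ 0 ↔ ¬ Yes x)) →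
        ε / 1080 * (n ^ 2 * Real.logb 2 n) ≤ (∑ e, T.reads (e, some (some 0)) : ℕ)) ∧
    ∀ (K : Type) [Field K] (n m : ℕ) (u : Fin n),
      ∃ (W : Type) (_ : Fintype W) (T : Net K (Sym2 (Fin n) × Pl m) W) (a : W → K),
        Fintype.card W = 2 ^ n + 1 ∧ (∀ v, T.reads (s(u, v), some (some 0)) = 1) ∧
          ∀ x, T.value a x ≠ 0 ↔ ¬ Yes x :=
  ⟨fun k n m hm u R _ _ K W _ _ T a hU hc hd => ex_vertex k n m hm u R K W T a hU hc hd,
    fun _ hε hε1 => ex_asym hε hε1, fun _ hε hε1 => ex_total hε hε1,
    fun K _ n m u => ex_upper K n m u⟩

end Pool.Agent.Results.MP_62fbe0_lc.TensorNetworks
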